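import Mathlib

/-!
Counting lemmas for layered random maps.

`Om N n = (p : Fin t × Fin n) → Fin (N p.1)` is the set of all choices of maps
`f i : Fin n → Fin (N i)`, one for each layer `i : Fin t`.
-/

namespace Pool.Agent.H923

open Finset

variable {t n : ℕ}

/-- All choices of layer maps. -/
abbrev Om (N : Fin t → ℕ) (n : ℕ) : Type := (p : Fin t × Fin n) → Fin (N p.1)

/-- `f` makes a repetition at `p = (i, a)` inside `A`. -/
def Rep (N : Fin t → ℕ) (A : Finset (Fin n)) (f : Om N n) (p : Fin t × Fin n) : Prop :=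
  ∃ a' ∈ A, a' < p.2 ∧ f (p.1, a') = f p

theorem card_fixed (N : Fin t → ℕ) (R : Finset (Fin t × Fin n))
    (h : Fin t × Fin n → Fin n) (hh : ∀ p ∈ R, h p < p.2) :
    Nat.card {f : Om N n // ∀ p ∈ R, f (p.1, h p) = f p} * (∏ p ∈ R, N p.1)
      ≤ Fintype.card (Om N n) := by
  classical
  have hinj : Function.Injective
      (fun (f : {f : Om N n // ∀ p ∈ R, f (p.1, h p) = f p}) =>
        (fun (p : {p : Fin t × Fin n // p ∉ R}) => f.1 p.1)) := by
    intro f g hfg
    apply Subtype.ext
    have key : ∀ (m : ℕ) (i : Fin t) (a : Fin n), (a : ℕ) = m → f.1 (i, a) = g.1 (i, a) := by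
      intro m
      induction m using Nat.strong_induction_on with
      | _ m ih =>
        intro i a ha
        by_cases hp : (i, a) ∈ R
        · have h1 := f.2 (i, a) hp
          have h2 := g.2 (i, a) hp
          have hlt := hh (i, a) hp
          have h3 := ih (h (i, a) : ℕ) (by rw [← ha]; exact hlt) i (h (i, a)) rfl
          rw [← h1, ← h2]
          exact h3
        · exact congrFun hfg ⟨(i, a), hp⟩
    funext p
    exact key p.2 p.1 p.2 rfl
  have hc := Nat.card_le_card_of_injective _ hinj
  have hc2 : Nat.card ((p : {p : Fin t × Fin n // p ∉ R}) → Fin (N p.1.1)) =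
      ∏ p ∈ (univ \ R : Finset (Fin t × Fin n)), N p.1 := by
    rw [Nat.card_eq_fintype_card, Fintype.card_pi]
    simp only [Fintype.card_fin]
    symm
    apply Finset.prod_subtype (univ \ R) (p := fun p => p ∉ R)
    intro x; simp
  have hc3 : Fintype.card (Om N n) = ∏ p : Fin t × Fin n, N p.1 := by
    rw [Fintype.card_pi]; simp
  rw [hc3, ← Finset.prod_sdiff (Finset.subset_univ R)]
  apply Nat.mul_le_mul_right
  rw [← hc2]
  exact hc

/-- The number of `f` that have a repetition at every `p ∈ R`. -/
theorem card_rep (N : Fin t → ℕ) (A : Finset (Fin n)) (R : Finset (Fin t × Fin n)) :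
    Nat.card {f : Om N n // ∀ p ∈ R, Rep N A f p} * (∏ p ∈ R, N p.1)
      ≤ A.card ^ R.card * Fintype.card (Om N n) := by
  classical
  -- certificates: functions from R to A
  let Cert := {x // x ∈ R} → {a // a ∈ A}
  let ext : Cert → (Fin t × Fin n → Fin n) := fun c p =>
    if hp : p ∈ R then (c ⟨p, hp⟩ : Fin n) else p.2
  let good : Finset Cert := univ.filter (fun c => ∀ p ∈ R, ext c p < p.2)
  have hcover : (univ.filter (fun f : Om N n => ∀ p ∈ R, Rep N A f p)) ⊆
      good.biUnion (fun c => univ.filter (fun f : Om N n => ∀ p ∈ R, f (p.1, ext c p) = f p)) := by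
    intro f hf
    simp only [mem_filter, mem_univ, true_and] at hf
    have : ∀ p : {x // x ∈ R}, ∃ a : {a // a ∈ A}, (a : Fin n) < p.1.2 ∧ f (p.1.1, a) = f p.1 := by
      intro p
      obtain ⟨a', ha', h1, h2⟩ := hf p.1 p.2
      exact ⟨⟨a', ha'⟩, h1, h2⟩
    choose c hc using this
    simp only [mem_biUnion, mem_filter, mem_univ, true_and, good]
    refine ⟨c, ?_, ?_⟩
    · intro p hp
      simp only [ext, hp, dif_pos]
      exact (hc ⟨p, hp⟩).1
    · intro p hp
      have h2 := (hc ⟨p, hp⟩).2
      have h3 : ext c p = (c ⟨p, hp⟩ : Fin n) := dif_pos hp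
      rw [h3]
      exact h2
  have h1 : Nat.card {f : Om N n // ∀ p ∈ R, Rep N A f p} =
      (univ.filter (fun f : Om N n => ∀ p ∈ R, Rep N A f p)).card := by
    rw [Nat.card_eq_fintype_card, Fintype.card_subtype]
  rw [h1]
  calc (univ.filter (fun f : Om N n => ∀ p ∈ R, Rep N A f p)).card * (∏ p ∈ R, N p.1)
      ≤ (∑ c ∈ good, (univ.filter
          (fun f : Om N n => ∀ p ∈ R, f (p.1, ext c p) = f p)).card) * (∏ p ∈ R, N p.1) := by
        apply Nat.mul_le_mul_right
        exact (card_le_card hcover).trans card_biUnion_le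
    _ = ∑ c ∈ good, (univ.filter
          (fun f : Om N n => ∀ p ∈ R, f (p.1, ext c p) = f p)).card * (∏ p ∈ R, N p.1) := by
        rw [Finset.sum_mul]
    _ ≤ ∑ c ∈ good, Fintype.card (Om N n) := by
        apply Finset.sum_le_sum
        intro c hc
        simp only [mem_filter, mem_univ, true_and, good] at hc
        have := card_fixed N R (ext c) hc
        rw [Nat.card_eq_fintype_card, Fintype.card_subtype] at this
        exact this
    _ = good.card * Fintype.card (Om N n) := by rw [Finset.sum_const, smul_eq_mul]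
    _ ≤ A.card ^ R.card * Fintype.card (Om N n) := by
        apply Nat.mul_le_mul_right
        calc good.card ≤ (univ : Finset Cert).card := card_le_card (filter_subset _ _)
          _ = A.card ^ R.card := by
            rw [Finset.card_univ]
            simp [Cert, Fintype.card_pi, Fintype.card_coe]

end Pool.Agent.H923
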