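import Mathlib
import Pool.Agent.H923.Count

namespace Pool.Agent.H923

open Finset

variable {t n : ℕ}

/-- The bipartite layered graph of a choice of layer maps. -/
def layerGraph (N : Fin t → ℕ) (f : Om N n) :
    SimpleGraph (Fin n ⊕ (Σ i : Fin t, Fin (N i))) where
  Adj x y := ∃ (i : Fin t) (a : Fin n),
    (x = Sum.inl a ∧ y = Sum.inr ⟨i, f (i, a)⟩) ∨ (y = Sum.inl a ∧ x = Sum.inr ⟨i, f (i, a)⟩)
  symm := ⟨by
    rintro x y ⟨i, a, h | h⟩
    · exact ⟨i, a, Or.inr h⟩
    · exact ⟨i, a, Or.inl h⟩⟩
  loopless := ⟨by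
    rintro x ⟨i, a, ⟨h1, h2⟩ | ⟨h1, h2⟩⟩
    · rw [h1] at h2; cases h2
    · rw [h1] at h2; cases h2⟩

/-- The map of layer `i`. -/
abbrev val {N : Fin t → ℕ} (f : Om N n) (i : Fin t) : Fin n → Fin (N i) := fun a => f (i, a)

theorem layer_adj_inl (N : Fin t → ℕ) (f : Om N n) (a : Fin n)
    (y : Fin n ⊕ (Σ i : Fin t, Fin (N i))) :
    (layerGraph N f).Adj (Sum.inl a) y ↔ ∃ i : Fin t, y = Sum.inr ⟨i, f (i, a)⟩ := by
  constructor
  · rintro ⟨i, a', ⟨h1, h2⟩ | ⟨h1, h2⟩⟩
    · cases h1; exact ⟨i, h2⟩
    · cases h2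
  · rintro ⟨i, h⟩
    exact ⟨i, a, Or.inl ⟨rfl, h⟩⟩

theorem layer_adj_inr (N : Fin t → ℕ) (f : Om N n) (i : Fin t) (b : Fin (N i))
    (y : Fin n ⊕ (Σ i : Fin t, Fin (N i))) :
    (layerGraph N f).Adj (Sum.inr ⟨i, b⟩) y ↔ ∃ a : Fin n, y = Sum.inl a ∧ f (i, a) = b := by
  constructor
  · rintro ⟨i', a', ⟨h1, h2⟩ | ⟨h1, h2⟩⟩
    · cases h1
    · simp only [Sum.inr.injEq, Sigma.mk.injEq] at h2
      obtain ⟨h3, h4⟩ := h2
      subst h3
      exact ⟨a', h1, (eq_of_heq h4).symm⟩
  · rintro ⟨a, h1, h2⟩
    refine ⟨i, a, Or.inr ⟨h1, ?_⟩⟩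
    rw [h2]

section

variable (N : Fin t → ℕ) (f : Om N n) (H : (layerGraph N f).Subgraph)

open Classical in
/-- The vertices of `H` in the big side. -/
noncomputable def bigSide : Finset (Fin n) :=
  univ.filter (fun a => (Sum.inl a : Fin n ⊕ (Σ i : Fin t, Fin (N i))) ∈ H.verts)

open Classical in
/-- The big-side vertices whose edge into layer `i` is in `H`. -/
noncomputable def used (i : Fin t) : Finset (Fin n) :=
  univ.filter (fun a => H.Adj (Sum.inl a) (Sum.inr ⟨i, f (i, a)⟩))

theorem used_subset (i : Fin t) : used N f H i ⊆ bigSide N f H := by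
  intro a ha
  simp only [used, bigSide, mem_filter, mem_univ, true_and] at *
  exact H.edge_vert ha

theorem nbr_inl (a : Fin n) :
    (H.neighborSet (Sum.inl a)).ncard =
      ((univ : Finset (Fin t)).filter (fun i => a ∈ used N f H i)).card := by
  classical
  have hinj : Function.Injective (fun i : Fin t =>
      (Sum.inr ⟨i, f (i, a)⟩ : Fin n ⊕ (Σ i : Fin t, Fin (N i)))) := by
    intro i j hij
    simp only [Sum.inr.injEq, Sigma.mk.injEq] at hij
    exact hij.1
  have : H.neighborSet (Sum.inl a) =
      ((((univ : Finset (Fin t)).filter (fun i => a ∈ used N f H i)).image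
        (fun i : Fin t => (Sum.inr ⟨i, f (i, a)⟩ : Fin n ⊕ (Σ i : Fin t, Fin (N i)))) :
        Finset _) : Set _) := by
    ext y
    simp only [SimpleGraph.Subgraph.mem_neighborSet, coe_image, coe_filter, mem_univ, true_and,
      Set.mem_image, Set.mem_ofPred_eq, used, mem_filter]
    constructor
    · intro h
      obtain ⟨i, hi⟩ := (layer_adj_inl N f a y).mp (H.adj_sub h)
      refine ⟨i, ?_, hi.symm⟩
      rw [← hi]; exact h
    · rintro ⟨i, h1, h2⟩
      rw [← h2]; exact h1
  rw [this, Set.ncard_coe_finset, card_image_of_injective _ hinj]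

theorem nbr_inr (i : Fin t) (b : Fin (N i)) :
    (H.neighborSet (Sum.inr ⟨i, b⟩)).ncard =
      ((used N f H i).filter (fun a => val f i a = b)).card := by
  classical
  have : H.neighborSet (Sum.inr ⟨i, b⟩) =
      ((((used N f H i).filter (fun a => val f i a = b)).image
        (fun a : Fin n => (Sum.inl a : Fin n ⊕ (Σ i : Fin t, Fin (N i)))) :
        Finset _) : Set _) := by
    ext y
    simp only [SimpleGraph.Subgraph.mem_neighborSet, coe_image, coe_filter,
      Set.mem_image, Set.mem_ofPred_eq, used, mem_filter, mem_univ, true_and]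
    constructor
    · intro h
      obtain ⟨a, ha, hb⟩ := (layer_adj_inr N f i b y).mp (H.adj_sub h)
      refine ⟨a, ⟨?_, hb⟩, ha.symm⟩
      rw [hb, ← ha]; exact h.symm
    · rintro ⟨a, ⟨h1, h2⟩, h3⟩
      rw [← h3, ← h2]; exact h1.symm
  rw [this, Set.ncard_coe_finset, card_image_of_injective _ Sum.inl_injective]

variable {N f H}

theorem sum_used (k : ℕ)
    (hk : ∀ x ∈ H.verts, k + 1 ≤ (H.neighborSet x).ncard) :
    (k + 1) * (bigSide N f H).card ≤ ∑ i : Fin t, (used N f H i).card := by
  classical
  have h1 : ∑ i : Fin t, (used N f H i).card =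
      ∑ a ∈ bigSide N f H, ((univ : Finset (Fin t)).filter (fun i => a ∈ used N f H i)).card := by
    have h2 : ∀ i : Fin t, (used N f H i).card =
        ∑ a ∈ bigSide N f H, if a ∈ used N f H i then 1 else 0 := by
      intro i
      rw [Finset.sum_ite_mem, Finset.inter_eq_right.mpr (used_subset N f H i)]
      simp
    simp_rw [h2]
    rw [Finset.sum_comm]
    apply Finset.sum_congr rfl
    intro a _
    rw [Finset.card_filter]
  rw [h1]
  calc (k + 1) * (bigSide N f H).card = ∑ a ∈ bigSide N f H, (k + 1) := by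
        rw [Finset.sum_const, smul_eq_mul, mul_comm]
    _ ≤ _ := by
        apply Finset.sum_le_sum
        intro a ha
        rw [← nbr_inl]
        apply hk
        simpa [bigSide] using ha

theorem used_card_eq (i : Fin t) :
    (used N f H i).card = ∑ b ∈ (used N f H i).image (val f i),
      ((used N f H i).filter (fun a => val f i a = b)).card :=
  Finset.card_eq_sum_card_image _ _

theorem mem_verts_of_image (i : Fin t) (b : Fin (N i))
    (hb : b ∈ (used N f H i).image (val f i)) :
    (Sum.inr ⟨i, b⟩ : Fin n ⊕ (Σ i : Fin t, Fin (N i))) ∈ H.verts := by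
  rw [mem_image] at hb
  obtain ⟨a, ha, hab⟩ := hb
  simp only [used, mem_filter, mem_univ, true_and] at ha
  rw [← hab]
  exact H.edge_vert ha.symm

theorem image_mul_le (k : ℕ)
    (hk : ∀ x ∈ H.verts, k + 1 ≤ (H.neighborSet x).ncard) (i : Fin t) :
    (k + 1) * ((used N f H i).image (val f i)).card ≤ (used N f H i).card := by
  conv_rhs => rw [used_card_eq]
  calc (k + 1) * ((used N f H i).image (val f i)).card
      = ∑ b ∈ (used N f H i).image (val f i), (k + 1) := by
        rw [Finset.sum_const, smul_eq_mul, mul_comm]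
    _ ≤ _ := by
        apply Finset.sum_le_sum
        intro b hb
        rw [← nbr_inr]
        exact hk _ (mem_verts_of_image i b hb)

theorem used_le_mul (D : ℕ)
    (hD : ∀ x ∈ H.verts, (H.neighborSet x).ncard ≤ D) (i : Fin t) :
    (used N f H i).card ≤ D * N i := by
  rw [used_card_eq]
  calc _ ≤ ∑ b ∈ (used N f H i).image (val f i), D := by
        apply Finset.sum_le_sum
        intro b hb
        rw [← nbr_inr]
        exact hD _ (mem_verts_of_image i b hb)
    _ = ((used N f H i).image (val f i)).card * D := by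
        rw [Finset.sum_const, smul_eq_mul]
    _ ≤ N i * D := by
        apply Nat.mul_le_mul_right
        have := Finset.card_le_univ ((used N f H i).image (val f i))
        simpa using this
    _ = D * N i := mul_comm _ _

variable (N f H) in
open Classical in
/-- Repetitions in layer `i`. -/
noncomputable def reps (i : Fin t) : Finset (Fin n) :=
  (used N f H i).filter (fun a => Rep N (bigSide N f H) f (i, a))

theorem card_le_reps_add_image (i : Fin t) :
    (used N f H i).card ≤ (reps N f H i).card +
      ((used N f H i).image (val f i)).card := by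
  classical
  have h1 : (used N f H i).card = (reps N f H i).card +
      ((used N f H i).filter (fun a => ¬ Rep N (bigSide N f H) f (i, a))).card := by
    rw [reps, Finset.card_filter_add_card_filter_not]
  rw [h1]
  apply Nat.add_le_add_left
  apply Finset.card_le_card_of_injOn (val f i)
  · intro a ha
    simp only [coe_filter, Set.mem_ofPred_eq] at ha
    simp only [coe_image, Set.mem_image, mem_coe]
    exact ⟨a, ha.1, rfl⟩
  · intro a ha a' ha' haa
    simp only [coe_filter, Set.mem_ofPred_eq] at ha ha'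
    rcases lt_trichotomy a a' with h | h | h
    · exfalso
      exact ha'.2 ⟨a, used_subset N f H i ha.1, h, haa⟩
    · exact h
    · exfalso
      exact ha.2 ⟨a', used_subset N f H i ha'.1, h, haa.symm⟩

theorem k_used_le (k : ℕ)
    (hk : ∀ x ∈ H.verts, k + 1 ≤ (H.neighborSet x).ncard) (i : Fin t) :
    k * (used N f H i).card ≤ (k + 1) * (reps N f H i).card := by
  have h1 := card_le_reps_add_image (N := N) (f := f) (H := H) i
  have h2 := image_mul_le k hk i
  nlinarith

theorem bigSide_nonempty (hne : H.verts.Nonempty)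
    (hk : ∀ x ∈ H.verts, 1 ≤ (H.neighborSet x).ncard) : (bigSide N f H).Nonempty := by
  classical
  obtain ⟨x, hx⟩ := hne
  cases x with
  | inl a => exact ⟨a, by simpa [bigSide] using hx⟩
  | inr p =>
    obtain ⟨i, b⟩ := p
    have h1 := hk _ hx
    rw [nbr_inr] at h1
    obtain ⟨a, ha⟩ := Finset.card_pos.mp h1
    exact ⟨a, used_subset N f H i (mem_filter.mp ha).1⟩

/-- The deterministic part: a subgraph with degrees in `[k+1, D]` gives many repetitions in the
good layers. -/
theorem exists_reps (k D : ℕ) (hk2 : 2 ≤ k) (G : ℕ → Fin t → Prop)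
    (hne : H.verts.Nonempty)
    (hk : ∀ x ∈ H.verts, k + 1 ≤ (H.neighborSet x).ncard)
    (hD : ∀ x ∈ H.verts, (H.neighborSet x).ncard ≤ D)
    (hwin : ∀ m, 1 ≤ m → m ≤ n → ∀ i j : Fin t, i < j →
      G m i ∨ G m j ∨ 8 * (D * t) * N i ≤ m ∨ 8 * (D * t) * N j ≤ m) :
    ∃ A : Finset (Fin n), A.Nonempty ∧ ∃ R : Finset (Fin t × Fin n),
      (∀ p ∈ R, G A.card p.1 ∧ p.2 ∈ A) ∧ 5 * A.card ≤ 4 * R.card ∧
      ∀ p ∈ R, Rep N A f p := by
  classical
  have hAne : (bigSide N f H).Nonempty :=
    bigSide_nonempty hne (fun x hx => le_trans (by omega) (hk x hx))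
  set A := bigSide N f H with hA
  have hm1 : 1 ≤ A.card := hAne.card_pos
  have hmn : A.card ≤ n := by
    have := Finset.card_le_univ A
    simpa using this
  refine ⟨A, hAne, ?_⟩
  let good : Finset (Fin t) := univ.filter (fun i => G A.card i)
  let small : Finset (Fin t) := univ.filter (fun i => ¬ G A.card i ∧ 8 * (D * t) * N i ≤ A.card)
  let mid : Finset (Fin t) := univ.filter (fun i => ¬ G A.card i ∧ ¬ 8 * (D * t) * N i ≤ A.card)
  have hmid : mid.card ≤ 1 := by
    rw [Finset.card_le_one]
    intro i hi j hj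
    simp only [mid, mem_filter, mem_univ, true_and] at hi hj
    rcases lt_trichotomy i j with h | h | h
    · rcases hwin A.card hm1 hmn i j h with h1 | h1 | h1 | h1
      · exact absurd h1 hi.1
      · exact absurd h1 hj.1
      · exact absurd h1 hi.2
      · exact absurd h1 hj.2
    · exact h
    · rcases hwin A.card hm1 hmn j i h with h1 | h1 | h1 | h1
      · exact absurd h1 hj.1
      · exact absurd h1 hi.1
      · exact absurd h1 hj.2
      · exact absurd h1 hi.2
  have hsplit : ∑ i : Fin t, (used N f H i).card =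
      ∑ i ∈ good, (used N f H i).card + (∑ i ∈ small, (used N f H i).card +
        ∑ i ∈ mid, (used N f H i).card) := by
    rw [← Finset.sum_filter_add_sum_filter_not univ (fun i => G A.card i)]
    congr 1
    rw [← Finset.sum_filter_add_sum_filter_not (univ.filter (fun i => ¬ G A.card i))
      (fun i => 8 * (D * t) * N i ≤ A.card)]
    rw [Finset.filter_filter, Finset.filter_filter]
  have hmidsum : ∑ i ∈ mid, (used N f H i).card ≤ A.card := by
    calc ∑ i ∈ mid, (used N f H i).card ≤ ∑ i ∈ mid, A.card :=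
          Finset.sum_le_sum (fun i _ => card_le_card (used_subset N f H i))
      _ = mid.card * A.card := by rw [Finset.sum_const, smul_eq_mul]
      _ ≤ 1 * A.card := Nat.mul_le_mul_right _ hmid
      _ = A.card := one_mul _
  have hsmallsum : 8 * ∑ i ∈ small, (used N f H i).card ≤ A.card := by
    by_cases hs : small.card = 0
    · rw [Finset.card_eq_zero] at hs
      rw [hs]; simp
    have htpos : 0 < t := by
      rcases Nat.eq_zero_or_pos t with h | h
      · subst h
        exfalso; apply hs
        rw [Finset.card_eq_zero]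
        apply Finset.eq_empty_of_forall_notMem
        intro i; exact i.elim0
      · exact h
    have h1 : ∀ i ∈ small, t * (8 * (used N f H i).card) ≤ A.card := by
      intro i hi
      simp only [small, mem_filter, mem_univ, true_and] at hi
      have h2 := used_le_mul D hD i
      calc t * (8 * (used N f H i).card) ≤ t * (8 * (D * N i)) := by gcongr
        _ = 8 * (D * t) * N i := by ring
        _ ≤ A.card := hi.2
    have h3 : t * (8 * ∑ i ∈ small, (used N f H i).card) ≤ t * A.card := by
      calc t * (8 * ∑ i ∈ small, (used N f H i).card)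
          = ∑ i ∈ small, t * (8 * (used N f H i).card) := by
            rw [Finset.mul_sum, Finset.mul_sum]
        _ ≤ ∑ i ∈ small, A.card := Finset.sum_le_sum h1
        _ = small.card * A.card := by rw [Finset.sum_const, smul_eq_mul]
        _ ≤ t * A.card := by
            apply Nat.mul_le_mul_right
            calc small.card ≤ (univ : Finset (Fin t)).card := card_le_card (filter_subset _ _)
              _ = t := by simp
    exact Nat.le_of_mul_le_mul_left h3 htpos
  have htotal := sum_used (N := N) (f := f) (H := H) k hk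
  have hgood : (8 * k - 1) * A.card ≤ 8 * ∑ i ∈ good, (used N f H i).card := by
    have h5 : 8 * ((k + 1) * A.card) ≤ 8 * ∑ i ∈ good, (used N f H i).card +
        (A.card + 8 * A.card) := by
      have := htotal
      rw [← hA] at this
      rw [hsplit] at this
      omega
    have h6 : (8 * k - 1) * A.card + (A.card + 8 * A.card) = 8 * ((k + 1) * A.card) := by
      have : 8 * k - 1 + 9 = 8 * (k + 1) := by omega
      calc (8 * k - 1) * A.card + (A.card + 8 * A.card) = (8 * k - 1 + 9) * A.card := by ring
        _ = 8 * (k + 1) * A.card := by rw [this]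
        _ = 8 * ((k + 1) * A.card) := by ring
    omega
  -- the set of repetitions
  refine ⟨(good.sigma (fun i => reps N f H i)).map
    ⟨fun x : (Σ _ : Fin t, Fin n) => (x.1, x.2), by
      rintro ⟨i, a⟩ ⟨j, b⟩ h
      simp only [Prod.mk.injEq] at h
      obtain ⟨h1, h2⟩ := h
      subst h1; subst h2; rfl⟩, ?_, ?_, ?_⟩
  · intro p hp
    simp only [mem_map, mem_sigma, Function.Embedding.coeFn_mk] at hp
    obtain ⟨x, ⟨hx1, hx2⟩, hx3⟩ := hp
    rw [← hx3]
    simp only [good, mem_filter, mem_univ, true_and] at hx1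
    refine ⟨hx1, ?_⟩
    simp only [reps, mem_filter] at hx2
    exact used_subset N f H x.1 hx2.1
  · rw [card_map, card_sigma]
    have h7 : k * ∑ i ∈ good, (used N f H i).card ≤ (k + 1) * ∑ i ∈ good, (reps N f H i).card := by
      rw [Finset.mul_sum, Finset.mul_sum]
      exact Finset.sum_le_sum (fun i _ => k_used_le k hk i)
    set U := ∑ i ∈ good, (used N f H i).card
    set Q := ∑ i ∈ good, (reps N f H i).card
    set m := A.card
    have h8 : 8 * (k + 1) * (4 * Q) ≥ 8 * (k + 1) * (5 * m) := by
      obtain ⟨l, rfl⟩ : ∃ l, k = l + 2 := ⟨k - 2, by omega⟩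
      have h9 : (8 * (l + 2) - 1) = 8 * l + 15 := by omega
      rw [h9] at hgood
      have h10 : (l + 2) * ((8 * l + 15) * m) ≤ (l + 2) * (8 * U) := Nat.mul_le_mul_left _ hgood
      nlinarith [h10, h7, Nat.zero_le (l * m), Nat.zero_le (l * l * m)]
    exact Nat.le_of_mul_le_mul_left h8 (by positivity)
  · intro p hp
    simp only [mem_map, mem_sigma, Function.Embedding.coeFn_mk] at hp
    obtain ⟨x, ⟨hx1, hx2⟩, hx3⟩ := hp
    rw [← hx3]
    simp only [reps, mem_filter] at hx2
    exact hx2.2

end

end Pool.Agent.H923
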