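import Mathlib
import Pool.Agent.H923.Count

namespace Pool.Agent.H923

open Finset

variable {t n : ℕ}

/-- One term of the union bound. -/
theorem term_bound (N : Fin t → ℕ) (hN : ∀ i, 0 < N i) (hn : 0 < n)
    (A : Finset (Fin n)) (hA : A.Nonempty) (R : Finset (Fin t × Fin n))
    (hR : ∀ p ∈ R, n ^ 4 * A.card * 2 ^ (4 * (t + 4)) ≤ (N p.1) ^ 5)
    (hcard : 5 * A.card ≤ 4 * R.card) :
    (Nat.card {f : Om N n // ∀ p ∈ R, Rep N A f p} : ℝ)
      ≤ Fintype.card (Om N n) * ((A.card : ℝ) / n * (1 / 2) ^ (t + 4)) ^ A.card := by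
  set m := A.card with hm
  have hm1 : 1 ≤ m := hA.card_pos
  have hmn : m ≤ n := by
    have := Finset.card_le_univ A
    simpa using this
  have hnR : (0 : ℝ) < n := by exact_mod_cast hn
  have hmR : (0 : ℝ) < m := by exact_mod_cast hm1
  set y : ℝ := (m : ℝ) / n * (1 / 2) ^ (t + 4) with hy
  have hy0 : 0 < y := by positivity
  have hy1 : y ≤ 1 := by
    have h1 : (m : ℝ) / n ≤ 1 := by
      rw [div_le_one hnR]; exact_mod_cast hmn
    have h2 : ((1 : ℝ) / 2) ^ (t + 4) ≤ 1 := pow_le_one₀ (by norm_num) (by norm_num)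
    calc y ≤ 1 * 1 := mul_le_mul h1 h2 (by positivity) (by norm_num)
      _ = 1 := by norm_num
  have hprodpos : (0 : ℝ) < ∏ p ∈ R, (N p.1 : ℝ) := by
    apply Finset.prod_pos
    intro p _
    exact_mod_cast hN p.1
  have h1 : (Nat.card {f : Om N n // ∀ p ∈ R, Rep N A f p} : ℝ) * (∏ p ∈ R, (N p.1 : ℝ))
      ≤ (m : ℝ) ^ R.card * Fintype.card (Om N n) := by
    have := card_rep N A R
    exact_mod_cast this
  -- product of ratios
  set P : ℝ := ∏ p ∈ R, ((m : ℝ) / N p.1) with hP
  have hPpos : 0 < P := by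
    apply Finset.prod_pos
    intro p _
    have : (0 : ℝ) < N p.1 := by exact_mod_cast hN p.1
    positivity
  have hPeq : P * (∏ p ∈ R, (N p.1 : ℝ)) = (m : ℝ) ^ R.card := by
    rw [hP, ← Finset.prod_mul_distrib]
    rw [← Finset.prod_const]
    apply Finset.prod_congr rfl
    intro p _
    have : (N p.1 : ℝ) ≠ 0 := by exact_mod_cast (hN p.1).ne'
    field_simp
  have h2 : (Nat.card {f : Om N n // ∀ p ∈ R, Rep N A f p} : ℝ)
      ≤ P * Fintype.card (Om N n) := by
    have h3 : (Nat.card {f : Om N n // ∀ p ∈ R, Rep N A f p} : ℝ) * (∏ p ∈ R, (N p.1 : ℝ))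
        ≤ (P * Fintype.card (Om N n)) * (∏ p ∈ R, (N p.1 : ℝ)) := by
      calc _ ≤ (m : ℝ) ^ R.card * Fintype.card (Om N n) := h1
        _ = (P * Fintype.card (Om N n)) * (∏ p ∈ R, (N p.1 : ℝ)) := by
          rw [← hPeq]; ring
    exact le_of_mul_le_mul_right h3 hprodpos
  have h5 : P ^ 5 ≤ (y ^ m) ^ 5 := by
    calc P ^ 5 = ∏ p ∈ R, ((m : ℝ) / N p.1) ^ 5 := by rw [hP, Finset.prod_pow]
      _ ≤ ∏ p ∈ R, y ^ 4 := by
        apply Finset.prod_le_prod
        · intro p _; positivity
        · intro p hp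
          have hNp : (0 : ℝ) < N p.1 := by exact_mod_cast hN p.1
          have h6 : (n : ℝ) ^ 4 * m * 2 ^ (4 * (t + 4)) ≤ (N p.1 : ℝ) ^ 5 := by
            exact_mod_cast hR p hp
          rw [div_pow, div_le_iff₀ (by positivity)]
          have h7 : y ^ 4 * ((n : ℝ) ^ 4 * m * 2 ^ (4 * (t + 4))) = (m : ℝ) ^ 5 := by
            rw [hy, mul_pow, div_pow, ← pow_mul, mul_comm (t + 4) 4]
            rw [one_div, inv_pow]
            field_simp
          calc (m : ℝ) ^ 5 = y ^ 4 * ((n : ℝ) ^ 4 * m * 2 ^ (4 * (t + 4))) := h7.symm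
            _ ≤ y ^ 4 * (N p.1 : ℝ) ^ 5 := by
              apply mul_le_mul_of_nonneg_left h6 (by positivity)
      _ = (y ^ 4) ^ R.card := by rw [Finset.prod_const]
      _ = y ^ (4 * R.card) := by rw [← pow_mul]
      _ ≤ y ^ (5 * m) := pow_le_pow_of_le_one hy0.le hy1 hcard
      _ = (y ^ m) ^ 5 := by rw [← pow_mul, mul_comm]
  have h6 : P ≤ y ^ m := le_of_pow_le_pow_left₀ (by norm_num) (by positivity) h5
  calc (Nat.card {f : Om N n // ∀ p ∈ R, Rep N A f p} : ℝ)
      ≤ P * Fintype.card (Om N n) := h2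
    _ ≤ y ^ m * Fintype.card (Om N n) := by
      apply mul_le_mul_of_nonneg_right h6 (by positivity)
    _ = _ := by ring

theorem choose_term (n m : ℕ) (hn : 0 < n) :
    ((n.choose m : ℕ) : ℝ) * ((m : ℝ) / n) ^ m ≤ 4 ^ m := by
  have hnR : (0 : ℝ) < n := by exact_mod_cast hn
  have h1 : ((n.choose m : ℕ) : ℝ) ≤ (n : ℝ) ^ m / (m.factorial : ℝ) := Nat.choose_le_pow_div m n
  have h2 : (m : ℝ) ^ m / (m.factorial : ℝ) ≤ Real.exp m :=
    Real.pow_div_factorial_le_exp (m : ℝ) (by positivity) m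
  have h3 : Real.exp (m : ℝ) ≤ 4 ^ m := by
    have : Real.exp (m : ℝ) = (Real.exp 1) ^ m := by
      rw [← Real.exp_nat_mul]; simp
    rw [this]
    apply pow_le_pow_left₀ (Real.exp_pos 1).le
    have := Real.exp_one_lt_d9
    linarith
  have hf : (0 : ℝ) < (m.factorial : ℝ) := by exact_mod_cast Nat.factorial_pos m
  calc ((n.choose m : ℕ) : ℝ) * ((m : ℝ) / n) ^ m
      ≤ ((n : ℝ) ^ m / (m.factorial : ℝ)) * ((m : ℝ) / n) ^ m := by
        apply mul_le_mul_of_nonneg_right h1 (by positivity)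
    _ = (m : ℝ) ^ m / (m.factorial : ℝ) := by
        rw [div_pow]; field_simp
    _ ≤ _ := h2.trans h3

theorem exists_good (N : Fin t → ℕ) (hN : ∀ i, 0 < N i) (hn : 0 < n)
    (G : ℕ → Fin t → Prop)
    (hG : ∀ m i, 1 ≤ m → m ≤ n → G m i → n ^ 4 * m * 2 ^ (4 * (t + 4)) ≤ (N i) ^ 5) :
    ∃ f : Om N n, ∀ A : Finset (Fin n), A.Nonempty → ∀ R : Finset (Fin t × Fin n),
      (∀ p ∈ R, G A.card p.1 ∧ p.2 ∈ A) → 5 * A.card ≤ 4 * R.card →
      ¬ ∀ p ∈ R, Rep N A f p := by
  classical
  by_contra hcon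
  push Not at hcon
  -- the index set
  let S : Finset (Finset (Fin n)) := (univ : Finset (Fin n)).powerset.filter (fun A => A.Nonempty)
  let T : Finset (Fin n) → Finset (Finset (Fin t × Fin n)) := fun A =>
    (((univ : Finset (Fin t)).filter (fun i => G A.card i)) ×ˢ A).powerset.filter
      (fun R => 5 * A.card ≤ 4 * R.card)
  have hcover : (univ : Finset (Om N n)) ⊆
      S.biUnion (fun A => (T A).biUnion (fun R =>
        univ.filter (fun f : Om N n => ∀ p ∈ R, Rep N A f p))) := by
    intro f _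
    obtain ⟨A, hA, R, hR, hc, hrep⟩ := hcon f
    simp only [mem_biUnion, mem_filter, mem_univ, true_and, S, T, mem_powerset]
    refine ⟨A, ⟨subset_univ _, hA⟩, R, ⟨?_, hc⟩, hrep⟩
    intro p hp
    rw [mem_product]
    exact ⟨by simp [(hR p hp).1], (hR p hp).2⟩
  have hOmpos : 0 < Fintype.card (Om N n) := by
    rw [Fintype.card_pi]
    apply Finset.prod_pos
    intro p _
    simpa using hN p.1
  have hOmR : (0 : ℝ) < Fintype.card (Om N n) := by exact_mod_cast hOmpos
  have hsum : (Fintype.card (Om N n) : ℝ) ≤ ∑ A ∈ S, ∑ R ∈ T A,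
      (Nat.card {f : Om N n // ∀ p ∈ R, Rep N A f p} : ℝ) := by
    have h1 : Fintype.card (Om N n) ≤ ∑ A ∈ S, ∑ R ∈ T A,
        (univ.filter (fun f : Om N n => ∀ p ∈ R, Rep N A f p)).card := by
      calc Fintype.card (Om N n) = (univ : Finset (Om N n)).card := (Finset.card_univ).symm
        _ ≤ _ := card_le_card hcover
        _ ≤ ∑ A ∈ S, ((T A).biUnion (fun R =>
              univ.filter (fun f : Om N n => ∀ p ∈ R, Rep N A f p))).card := card_biUnion_le
        _ ≤ _ := Finset.sum_le_sum (fun A _ => card_biUnion_le)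
    have h2 : ∑ A ∈ S, ∑ R ∈ T A,
        ((univ.filter (fun f : Om N n => ∀ p ∈ R, Rep N A f p)).card : ℝ) =
        ∑ A ∈ S, ∑ R ∈ T A,
      (Nat.card {f : Om N n // ∀ p ∈ R, Rep N A f p} : ℝ) := by
      apply Finset.sum_congr rfl
      intro A _
      apply Finset.sum_congr rfl
      intro R _
      rw [Nat.card_eq_fintype_card, Fintype.card_subtype]
    rw [← h2]
    exact_mod_cast h1
  have hterm : ∀ A ∈ S, ∑ R ∈ T A, (Nat.card {f : Om N n // ∀ p ∈ R, Rep N A f p} : ℝ)
      ≤ (Fintype.card (Om N n) : ℝ) * (((A.card : ℝ) / n) ^ A.card * (1 / 16) ^ A.card) := by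
    intro A hA
    simp only [mem_filter, mem_powerset, S] at hA
    have hA2 := hA.2
    have hAn : A.card ≤ n := by
      have := Finset.card_le_univ A
      simpa using this
    have hTcard : ((T A).card : ℝ) ≤ 2 ^ (t * A.card) := by
      have h1 : (T A).card ≤ 2 ^ (t * A.card) := by
        calc (T A).card ≤ _ := card_le_card (filter_subset _ _)
          _ = 2 ^ ((((univ : Finset (Fin t)).filter (fun i => G A.card i)) ×ˢ A).card) :=
              card_powerset _
          _ ≤ 2 ^ (t * A.card) := by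
              apply Nat.pow_le_pow_right (by norm_num)
              rw [card_product]
              apply Nat.mul_le_mul_right
              calc _ ≤ (univ : Finset (Fin t)).card := card_le_card (filter_subset _ _)
                _ = t := by simp
      exact_mod_cast h1
    calc ∑ R ∈ T A, (Nat.card {f : Om N n // ∀ p ∈ R, Rep N A f p} : ℝ)
        ≤ ∑ R ∈ T A, (Fintype.card (Om N n) *
            ((A.card : ℝ) / n * (1 / 2) ^ (t + 4)) ^ A.card) := by
          apply Finset.sum_le_sum
          intro R hR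
          simp only [mem_filter, mem_powerset, T] at hR
          apply term_bound N hN hn A hA2 R _ hR.2
          intro p hp
          have := hR.1 hp
          rw [mem_product] at this
          have hg : G A.card p.1 := by simpa using this.1
          exact hG A.card p.1 hA2.card_pos hAn hg
      _ = (T A).card * (Fintype.card (Om N n) *
            ((A.card : ℝ) / n * (1 / 2) ^ (t + 4)) ^ A.card) := by
          rw [Finset.sum_const, nsmul_eq_mul]
      _ ≤ 2 ^ (t * A.card) * (Fintype.card (Om N n) *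
            ((A.card : ℝ) / n * (1 / 2) ^ (t + 4)) ^ A.card) := by
          apply mul_le_mul_of_nonneg_right hTcard (by positivity)
      _ = _ := by
          rw [pow_mul, mul_pow, ← pow_mul ((1:ℝ)/2) (t+4), add_mul, pow_add, pow_mul, pow_mul]
          have e1 : ((1 : ℝ) / 2) ^ 4 = 1 / 16 := by norm_num
          rw [e1]
          have e2 : ((2 : ℝ) ^ t) ^ A.card * (((1 : ℝ) / 2) ^ t) ^ A.card = 1 := by
            rw [← mul_pow, ← mul_pow]; norm_num
          calc ((2 : ℝ) ^ t) ^ A.card * (Fintype.card (Om N n) *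
                (((A.card : ℝ) / n) ^ A.card * ((((1 : ℝ) / 2) ^ t) ^ A.card * (1 / 16) ^ A.card)))
              = (((2 : ℝ) ^ t) ^ A.card * (((1 : ℝ) / 2) ^ t) ^ A.card) *
                (Fintype.card (Om N n) * (((A.card : ℝ) / n) ^ A.card * (1 / 16) ^ A.card)) := by
                ring
            _ = _ := by rw [e2, one_mul]
  have hfin : ∑ A ∈ S, (((A.card : ℝ) / n) ^ A.card * (1 / 16) ^ A.card) < 1 := by
    -- replace by the sum over the whole powerset, minus the empty set
    let g : ℕ → ℝ := fun m => if m = 0 then 0 else ((m : ℝ) / n) ^ m * (1 / 16) ^ m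
    have h1 : ∑ A ∈ S, (((A.card : ℝ) / n) ^ A.card * (1 / 16) ^ A.card) =
        ∑ A ∈ (univ : Finset (Fin n)).powerset, g A.card := by
      rw [Finset.sum_filter]
      apply Finset.sum_congr rfl
      intro A _
      by_cases hA : A.Nonempty
      · simp only [hA, if_true, g]
        rw [if_neg hA.card_pos.ne']
      · have hA' : A = ∅ := Finset.not_nonempty_iff_eq_empty.mp hA
        simp [hA', g]
    rw [h1, Finset.sum_powerset_apply_card]
    have h2 : ∀ m ∈ range ((univ : Finset (Fin n)).card + 1),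
        ((univ : Finset (Fin n)).card.choose m) • g m ≤ if m = 0 then 0 else (1 / 4 : ℝ) ^ m := by
      intro m _
      rw [Finset.card_univ, Fintype.card_fin]
      by_cases hm : m = 0
      · simp [hm, g]
      · simp only [g, hm, if_false, nsmul_eq_mul]
        calc ((n.choose m : ℕ) : ℝ) * (((m : ℝ) / n) ^ m * (1 / 16) ^ m)
            = (((n.choose m : ℕ) : ℝ) * ((m : ℝ) / n) ^ m) * (1 / 16) ^ m := by ring
          _ ≤ 4 ^ m * (1 / 16) ^ m := by
            apply mul_le_mul_of_nonneg_right (choose_term n m hn) (by positivity)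
          _ = (1 / 4 : ℝ) ^ m := by rw [← mul_pow]; norm_num
    calc _ ≤ ∑ m ∈ range ((univ : Finset (Fin n)).card + 1),
          (if m = 0 then 0 else (1 / 4 : ℝ) ^ m) := Finset.sum_le_sum h2
      _ < 1 := by
        rw [Finset.sum_range_succ']
        simp only [Nat.succ_ne_zero, if_false, if_true, add_zero, Nat.add_eq_zero_iff, one_ne_zero,
          and_false]
        have : ∀ k : ℕ, ∑ i ∈ range k, (1 / 4 : ℝ) ^ (i + 1) = (1 - (1 / 4 : ℝ) ^ k) / 3 := by
          intro k
          induction k with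
          | zero => simp
          | succ k ih => rw [Finset.sum_range_succ, ih]; ring
        rw [this]
        have : (0 : ℝ) < (1 / 4 : ℝ) ^ (univ : Finset (Fin n)).card := by positivity
        linarith
  have : (Fintype.card (Om N n) : ℝ) < Fintype.card (Om N n) := by
    calc (Fintype.card (Om N n) : ℝ) ≤ _ := hsum
      _ ≤ ∑ A ∈ S, (Fintype.card (Om N n) : ℝ) *
            (((A.card : ℝ) / n) ^ A.card * (1 / 16) ^ A.card) := Finset.sum_le_sum hterm
      _ = (Fintype.card (Om N n) : ℝ) *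
            ∑ A ∈ S, (((A.card : ℝ) / n) ^ A.card * (1 / 16) ^ A.card) := by
          rw [Finset.mul_sum]
      _ < (Fintype.card (Om N n) : ℝ) * 1 := by
          apply mul_lt_mul_of_pos_left hfin hOmR
      _ = _ := mul_one _
  exact lt_irrefl _ this

end Pool.Agent.H923
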