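import Mathlib
import Pool.Agent.H923.Union
import Pool.Agent.H923.Layer

namespace Pool.Agent.H923

open Finset

/-- Size of the big side. -/
def bigN (s t : ℕ) : ℕ := 2 ^ (s * 8 ^ t)

/-- Size of layer `i`. -/
def layN (s t : ℕ) (i : Fin t) : ℕ := 2 ^ (s * 8 ^ t - s * 8 ^ (i : ℕ))

theorem exp_le (s t : ℕ) (i : Fin t) : s * 8 ^ (i : ℕ) ≤ s * 8 ^ t := by
  apply Nat.mul_le_mul_left
  exact Nat.pow_le_pow_right (by norm_num) i.2.le

/-- The window lemma: two different layers cannot both be neither good nor small. -/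
theorem window (s t D : ℕ) (hs : 8 * (D * t) + 4 * (t + 4) ≤ s) (m : ℕ) (i j : Fin t)
    (hij : i < j) :
    (bigN s t) ^ 4 * m * 2 ^ (4 * (t + 4)) ≤ (layN s t i) ^ 5 ∨
    (bigN s t) ^ 4 * m * 2 ^ (4 * (t + 4)) ≤ (layN s t j) ^ 5 ∨
    8 * (D * t) * layN s t i ≤ m ∨ 8 * (D * t) * layN s t j ≤ m := by
  by_cases hsm : 8 * (D * t) * layN s t j ≤ m
  · exact Or.inr (Or.inr (Or.inr hsm))
  left
  push Not at hsm
  have h1 : 8 * (D * t) ≤ 2 ^ (8 * (D * t)) := Nat.lt_two_pow_self.le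
  have hj := exp_le s t j
  have hi := exp_le s t i
  have h8 : s * 8 ^ (j : ℕ) ≥ 8 * (s * 8 ^ (i : ℕ)) := by
    have : (8 : ℕ) ^ (j : ℕ) ≥ 8 ^ ((i : ℕ) + 1) := Nat.pow_le_pow_right (by norm_num) hij
    calc s * 8 ^ (j : ℕ) ≥ s * 8 ^ ((i : ℕ) + 1) := Nat.mul_le_mul_left _ this
      _ = 8 * (s * 8 ^ (i : ℕ)) := by ring
  have h9 : s * 8 ^ (i : ℕ) ≥ s := by
    calc s * 8 ^ (i : ℕ) ≥ s * 1 := Nat.mul_le_mul_left _ (Nat.one_le_pow _ _ (by norm_num))
      _ = s := mul_one s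
  calc (bigN s t) ^ 4 * m * 2 ^ (4 * (t + 4))
      ≤ (bigN s t) ^ 4 * (8 * (D * t) * layN s t j) * 2 ^ (4 * (t + 4)) := by gcongr
    _ ≤ (bigN s t) ^ 4 * (2 ^ (8 * (D * t)) * layN s t j) * 2 ^ (4 * (t + 4)) := by gcongr
    _ = 2 ^ (4 * (s * 8 ^ t) + (8 * (D * t) + (s * 8 ^ t - s * 8 ^ (j : ℕ))) + 4 * (t + 4)) := by
        rw [bigN, layN]
        rw [← pow_mul, ← pow_add, ← pow_add, ← pow_add]
        congr 1
        ring
    _ ≤ 2 ^ (5 * (s * 8 ^ t - s * 8 ^ (i : ℕ))) := by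
        apply Nat.pow_le_pow_right (by norm_num)
        omega
    _ = (layN s t i) ^ 5 := by
        rw [layN, ← pow_mul]
        congr 1
        ring

theorem card_verts_le (s t : ℕ) (hs : t ≤ s) :
    Fintype.card (Fin (bigN s t) ⊕ (Σ i : Fin t, Fin (layN s t i))) ≤ 2 * bigN s t := by
  rw [Fintype.card_sum, Fintype.card_sigma, Fintype.card_fin]
  have h1 : ∀ i : Fin t, Fintype.card (Fin (layN s t i)) * t ≤ bigN s t := by
    intro i
    rw [Fintype.card_fin]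
    have h9 : s * 8 ^ (i : ℕ) ≥ s := by
      calc s * 8 ^ (i : ℕ) ≥ s * 1 := Nat.mul_le_mul_left _ (Nat.one_le_pow _ _ (by norm_num))
        _ = s := mul_one s
    have hi := exp_le s t i
    calc layN s t i * t ≤ layN s t i * 2 ^ t := Nat.mul_le_mul_left _ Nat.lt_two_pow_self.le
      _ = 2 ^ ((s * 8 ^ t - s * 8 ^ (i : ℕ)) + t) := by rw [layN, ← pow_add]
      _ ≤ 2 ^ (s * 8 ^ t) := Nat.pow_le_pow_right (by norm_num) (by omega)
      _ = bigN s t := rfl
  have h2 : ∑ i : Fin t, Fintype.card (Fin (layN s t i)) ≤ bigN s t := by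
    rcases Nat.eq_zero_or_pos t with h | h
    · subst h; simp
    · have h3 : (∑ i : Fin t, Fintype.card (Fin (layN s t i))) * t ≤ bigN s t * t := by
        rw [Finset.sum_mul]
        calc _ ≤ ∑ i : Fin t, bigN s t := Finset.sum_le_sum (fun i _ => h1 i)
          _ = bigN s t * t := by simp [mul_comm]
      exact Nat.le_of_mul_le_mul_right h3 h
  omega

theorem card_edges_ge {t n : ℕ} (N : Fin t → ℕ) (f : Om N n) :
    t * n ≤ (layerGraph N f).edgeSet.ncard := by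
  classical
  let φ : Fin t × Fin n → Sym2 (Fin n ⊕ (Σ i : Fin t, Fin (N i))) := fun p =>
    s(Sum.inl p.2, Sum.inr ⟨p.1, f p⟩)
  have hinj : Function.Injective φ := by
    rintro ⟨i, a⟩ ⟨j, b⟩ h
    simp only [φ, Sym2.eq_iff, Sum.inl.injEq, Sum.inr.injEq, Sigma.mk.injEq, reduceCtorEq,
      false_and, or_false] at h
    obtain ⟨h1, h2, _⟩ := h
    rw [h1, h2]
  have hsub : (Set.range φ) ⊆ (layerGraph N f).edgeSet := by
    rintro _ ⟨⟨i, a⟩, rfl⟩
    exact ⟨i, a, Or.inl ⟨rfl, rfl⟩⟩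
  calc t * n = Nat.card (Fin t × Fin n) := by simp
    _ = (Set.range φ).ncard := by
        rw [← Set.image_univ, Set.ncard_image_of_injective _ hinj, Set.ncard_univ]
    _ ≤ _ := Set.ncard_le_ncard hsub (Set.toFinite _)

/-- Main construction: for every `k ≥ 2`, `D` and `t` there is a finite graph with average degree
at least `t` having no subgraph with all degrees in `[k+1, D]`. -/
theorem construction (k D t : ℕ) (hk : 2 ≤ k) :
    ∃ (n : ℕ) (N : Fin t → ℕ) (f : Om N n), 0 < n ∧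
      Fintype.card (Fin n ⊕ (Σ i : Fin t, Fin (N i))) ≤ 2 * n ∧
      ∀ H : (layerGraph N f).Subgraph, H.verts.Nonempty →
        (∀ x ∈ H.verts, k + 1 ≤ (H.neighborSet x).ncard) →
        ¬ (∀ x ∈ H.verts, (H.neighborSet x).ncard ≤ D) := by
  set s := 8 * (D * t) + 4 * (t + 4) with hs
  have hn : 0 < bigN s t := by unfold bigN; positivity
  obtain ⟨f, hf⟩ := exists_good (N := layN s t) (n := bigN s t)
    (fun i => by unfold layN; positivity) hn
    (fun m i => (bigN s t) ^ 4 * m * 2 ^ (4 * (t + 4)) ≤ (layN s t i) ^ 5)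
    (fun m i _ _ h => h)
  refine ⟨bigN s t, layN s t, f, hn, card_verts_le s t (by omega), ?_⟩
  intro H hne hk1 hD
  obtain ⟨A, hA, R, hR, hc, hrep⟩ := exists_reps k D hk
    (fun m i => (bigN s t) ^ 4 * m * 2 ^ (4 * (t + 4)) ≤ (layN s t i) ^ 5)
    hne hk1 hD (fun m _ _ i j hij => window s t D (by omega) m i j hij)
  exact hf A hA R hR hc hrep

end Pool.Agent.H923
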